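import Pool.Agent.H211.AD.Stm4
import Pool.Agent.H211.LD.Dir

/-! The directions, for polynomials, all multiplicities. -/

set_option autoImplicit false

open Filter Topology Metric Set Polynomial MeasureTheory
open scoped OnePoint ENNReal

namespace Pool.Agent.H353.AD211

open Pool.Agent.H211.LD
open Pool.Agent.X325.EP
open Pool.Agent.H792R2.CE Pool.Agent.H792R2

/-- The directions, for polynomials. -/
theorem t_TRP : Pool.Agent.H211.AD.S_TRP := by
  classical
  intro A hA P d hd hPd hnull hcr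
  have hP0 : P ≠ 0 := by
    rintro rfl
    rw [natDegree_zero] at hPd
    omega
  have hN : wr P 1 ≠ 0 := by
    rw [wr_one]
    intro h
    have := Polynomial.derivative_eq_zero.1 h
    omega
  obtain ⟨R, ρe, hR1, hρe, hesc⟩ := Dyn.family_escape (d := d) hd
    (p := fun _ => P) (Dyn.PF.const P) (fun _ => hPd.le) (by
      rw [← hPd]
      exact leadingCoeff_ne_zero.2 hP0)
  have hR0 : 0 < R := by linarith
  have hescP : ∀ z : ℂ, R ≤ ‖z‖ → 2 * ‖z‖ ≤ ‖P.eval z‖ := fun z hz =>
    (hesc 0 (by simpa using hρe)).2 z hz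
  have hdense : Dense {z : ℂ | A (rf P 1) z} := by
    apply Measure.dense_of_ae (μ := volume)
    rw [ae_iff]
    exact hnull
  obtain ⟨Ks, hKs⟩ : ∃ Ks : Set ℂ, Ks = {z : ℂ | ¬ A (rf P 1) z} := ⟨_, rfl⟩
  have hKc : IsCompact Ks := by rw [hKs]; exact natt_compact_poly hA hR0 hescP
  have hmemK : ∀ z : ℂ, z ∈ Ks ↔ ¬ A (rf P 1) z := fun z => by rw [hKs]; rfl
  have hstay : ∀ z ∈ Ks, ∀ n, (rf P 1)^[n] z ∈ Ks := by
    intro z hz n
    rw [hmemK] at hz ⊢
    exact natt_iter_poly hA hz n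
  obtain ⟨bad, hbad, hbadc⟩ : ∃ bad : Finset ℂ, (∀ c, c ∈ bad ↔ (wr P 1).eval c = 0 ∧ c ∈ Ks) ∧
      bad.card ≤ d - 1 := by
    refine ⟨(wr P 1).roots.toFinset.filter (fun c => c ∈ Ks), fun c => ?_, ?_⟩
    · rw [Finset.mem_filter, Multiset.mem_toFinset, Polynomial.mem_roots hN]
      rfl
    · refine (Finset.card_filter_le _ _).trans ((Multiset.toFinset_card_le _).trans ?_)
      refine (Polynomial.card_roots' _).trans ?_
      rw [wr_one, ← hPd]
      exact natDegree_derivative_le P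
  have hcrb : ∀ c ∈ bad, (∀ j, deriv ((rf P 1)^[j]) (rf P 1 c) ≠ 0) ∧
      Summable fun m => ‖deriv ((rf P 1)^[m]) (rf P 1 c)‖⁻¹ := fun c hc =>
    hcr c ((hbad c).1 hc).1 ((hmemK c).1 ((hbad c).1 hc).2)
  -- the first family of subspaces
  obtain ⟨V1, hV1⟩ : ∃ V1 : {c // c ∈ bad} → Submodule ℂ ℂ[X],
      ∀ c S, S ∈ V1 c ↔ (derivative S).eval (c : ℂ) = 0 := by
    refine ⟨fun c => { carrier := {S | (derivative S).eval (c : ℂ) = 0}
                       add_mem' := ?_, zero_mem' := ?_, smul_mem' := ?_ }, fun c S => Iff.rfl⟩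
    · intro S T hS hT
      simp only [mem_ofPred_eq] at hS hT ⊢
      rw [derivative_add, eval_add, hS, hT, add_zero]
    · simp
    · intro t S hS
      simp only [mem_ofPred_eq] at hS ⊢
      rw [derivative_smul, eval_smul, hS, smul_zero]
  have hV1p : ∀ c, ∃ H : ℂ[X], H.natDegree < d ∧ H ∉ V1 c := by
    intro c
    refine ⟨X, by rw [natDegree_X]; omega, ?_⟩
    rw [hV1, derivative_X, eval_one]
    exact one_ne_zero
  -- the second family of subspaces
  have hsm : ∀ c ∈ bad, ∀ S : ℂ[X],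
      Summable fun j => S.eval ((rf P 1)^[j] c) / (1 : ℂ[X]).eval ((rf P 1)^[j] c) ^ 2 /
        deriv ((rf P 1)^[j]) (rf P 1 c) := by
    intro c hc S
    have h := (hcrb c hc).2
    obtain ⟨B, hB⟩ := hKc.exists_bound_of_continuousOn (f := fun z => S.eval z)
      S.continuous.continuousOn
    refine Summable.of_norm_bounded (h.mul_left B) fun j => ?_
    rw [eval_one, one_pow, div_one, div_eq_mul_inv, norm_mul, norm_inv]
    exact mul_le_mul_of_nonneg_right (hB _ (hstay c ((hbad c).1 hc).2 j)) (by positivity)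
  have hex2 : ∀ c : {c // c ∈ bad}, ∃ V : Submodule ℂ ℂ[X],
      (∃ H : ℂ[X], H.natDegree < d ∧ H ∉ V) ∧
        ∀ S : ℂ[X], S ∈ V ↔ ∑' j, S.eval ((rf P 1)^[j] c) /
          (1 : ℂ[X]).eval ((rf P 1)^[j] c) ^ 2 / deriv ((rf P 1)^[j]) (rf P 1 c) = 0 := by
    intro c
    have hv : volume (closure (Set.range fun m => (rf P 1)^[m] (rf P 1 c))) = 0 := by
      have h0 : volume Ks = 0 := by rw [hKs]; exact hnull
      refine measure_mono_null (closure_minimal ?_ hKc.isClosed) h0
      rintro _ ⟨m, rfl⟩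
      have h3 := hstay c ((hbad c).1 c.2).2 (m + 1)
      rw [Function.iterate_succ_apply] at h3
      exact h3
    refine ⟨{ carrier := {S | ∑' j, S.eval ((rf P 1)^[j] c) /
                (1 : ℂ[X]).eval ((rf P 1)^[j] c) ^ 2 / deriv ((rf P 1)^[j]) (rf P 1 c) = 0}
              add_mem' := ?_, zero_mem' := ?_, smul_mem' := ?_ }, ?_, fun S => Iff.rfl⟩
    · intro S T hS hT
      simp only [mem_ofPred_eq] at hS hT ⊢
      rw [← add_zero (0 : ℂ)]
      nth_rw 1 [← hS]
      rw [← hT, ← (hsm _ c.2 S).tsum_add (hsm _ c.2 T)]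
      refine tsum_congr fun j => ?_
      rw [Polynomial.eval_add]
      ring
    · simp
    · intro t S hS
      simp only [mem_ofPred_eq] at hS ⊢
      rw [← mul_zero t, ← hS, ← tsum_mul_left]
      refine tsum_congr fun j => ?_
      rw [Polynomial.eval_smul, smul_eq_mul]
      ring
    · obtain ⟨S, h1, h2⟩ := transversal_poly (Q := 1) hd rfl hPd (Rr := R) (fun z hz => by
          have := hescP z hz
          have := norm_nonneg z
          linarith) ((hbad _).1 c.2).1 hN hKc (fun j => hstay c ((hbad _).1 c.2).2 j)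
          (fun z _ => by simp) (hcrb c c.2).1 (hcrb c c.2).2
          (A₀ := {z : ℂ | A (rf P 1) z}) (attr_open hA hR0 hescP) hdense
          (fun x hx h => ((hmemK x).1 h) hx)
          (by
            filter_upwards [wandering hR0 hescP] with x hx h
            exact hx (hA.attr h)) hv
      exact ⟨S, by omega, h2⟩
  choose V2 hV2p hV2 using hex2
  refine ⟨Finset.univ.image (fun p : {c // c ∈ bad} × Bool => if p.2 then V2 p.1 else V1 p.1),
    ?_, ?_, ?_⟩
  · refine Finset.card_image_le.trans ?_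
    rw [Finset.card_univ, Fintype.card_prod, Fintype.card_coe, Fintype.card_bool]
    omega
  · intro V hV
    rw [Finset.mem_image] at hV
    obtain ⟨⟨c, b⟩, -, rfl⟩ := hV
    cases b
    · simpa using hV1p c
    · simpa using hV2p c
  · intro H hHd hH c hc hAc
    have hcb : c ∈ bad := (hbad c).2 ⟨hc, (hmemK c).2 hAc⟩
    have hH1 : H ∉ V1 ⟨c, hcb⟩ :=
      hH _ (Finset.mem_image.2 ⟨(⟨c, hcb⟩, false), Finset.mem_univ _, by simp⟩)
    have hH2 : H ∉ V2 ⟨c, hcb⟩ :=
      hH _ (Finset.mem_image.2 ⟨(⟨c, hcb⟩, true), Finset.mem_univ _, by simp⟩)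
    have hred : H * 1 - P * 0 = H := by ring
    rw [hred]
    refine ⟨?_, hsm c hcb H, ?_⟩
    · rw [hV1] at hH1
      simpa [wr] using hH1
    · rw [hV2] at hH2
      exact hH2

end Pool.Agent.H353.AD211
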